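import Pool.Agent.H770.GS.TA

/-!
# Project TA: the derivative of `Qf`
-/

set_option autoImplicit false

open MeasureTheory Set intervalIntegral Filter Topology

namespace Pool.Agent.H356.GSQd

open Pool.Agent.H770.GS

/-- differentiation of a parametric integral over a fixed interval -/
theorem deriv_param {f f' : ℝ → ℝ → ℝ} (hf : Continuous f.uncurry) (hf' : Continuous f'.uncurry)
    (hd : ∀ v a, HasDerivAt (fun v => f v a) (f' v a) v) (s v : ℝ) :
    HasDerivAt (fun v => ∫ a in (0:ℝ)..s, f v a) (∫ a in (0:ℝ)..s, f' v a) v := by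
  obtain ⟨M, hM⟩ := ((isCompact_Icc (a := v - 1) (b := v + 1)).prod
    (isCompact_uIcc (a := (0:ℝ)) (b := s))).exists_bound_of_continuousOn hf'.continuousOn
  have hs : Icc (v - 1) (v + 1) ∈ 𝓝 v := Icc_mem_nhds (by linarith) (by linarith)
  refine (intervalIntegral.hasDerivAt_integral_of_dominated_loc_of_deriv_le (F := f) (F' := f') (bound := fun _ => M)
    hs ?_ ?_ ?_ ?_ ?_ ?_).2
  · refine Eventually.of_forall fun x => ?_
    have : Continuous (f x) := hf.comp (by fun_prop : Continuous fun a : ℝ => (x, a))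
    exact this.aestronglyMeasurable
  · have : Continuous (f v) := hf.comp (by fun_prop : Continuous fun a : ℝ => (v, a))
    exact this.intervalIntegrable _ _
  · have : Continuous (f' v) := hf'.comp (by fun_prop : Continuous fun a : ℝ => (v, a))
    exact this.aestronglyMeasurable
  · refine Eventually.of_forall fun a ha x hx => ?_
    exact hM (x, a) ⟨hx, uIoc_subset_uIcc ha⟩
  · exact continuous_const.intervalIntegrable _ _
  · exact Eventually.of_forall fun a _ x _ => hd x a

/-- the Leibniz rule -/
theorem leib {f f' : ℝ → ℝ → ℝ} (hf : Continuous f.uncurry) (hf' : Continuous f'.uncurry)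
    (hd : ∀ v a, HasDerivAt (fun v => f v a) (f' v a) v) {h : ℝ → ℝ} {k v : ℝ}
    (hh : HasDerivAt h k v) :
    HasDerivAt (fun v => ∫ a in (0:ℝ)..(h v), f v a)
      (k * f v (h v) + ∫ a in (0:ℝ)..(h v), f' v a) v := by
  have hcv : ∀ x : ℝ, Continuous (f x) := fun x =>
    hf.comp (by fun_prop : Continuous fun a : ℝ => (x, a))
  have hstr := hasStrictFDerivAt_uncurry_coprod (𝕜 := ℝ) (u := (h v, v))
    (f := fun s v => ∫ a in (0:ℝ)..s, f v a)
    (f₁ := fun s v => (ContinuousLinearMap.id ℝ ℝ).smulRight (f v s))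
    (f₂ := fun s v => (ContinuousLinearMap.id ℝ ℝ).smulRight (∫ a in (0:ℝ)..s, f' v a))
    (Eventually.of_forall fun p => ?_) (Eventually.of_forall fun p => ?_) ?_ ?_
  · have hc : HasDerivAt (fun v => (h v, v)) (k, (1:ℝ)) v := hh.prodMk (hasDerivAt_id v)
    have := HasFDerivAt.comp_hasDerivAt (f := fun v => (h v, v)) v hstr.hasFDerivAt hc
    refine this.congr_deriv ?_
    simp [Function.HasUncurry.uncurry]
  · have := intervalIntegral.integral_hasDerivAt_right ((hcv p.2).intervalIntegrable 0 p.1)
      ((hcv p.2).stronglyMeasurableAtFilter _ _) (hcv p.2).continuousAt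
    exact this.hasFDerivAt
  · exact (deriv_param hf hf' hd p.1 p.2).hasFDerivAt
  · have h1 : Continuous fun p : ℝ × ℝ => f p.2 p.1 :=
      hf.comp (by fun_prop : Continuous fun p : ℝ × ℝ => (p.2, p.1))
    exact ((ContinuousLinearMap.smulRightL ℝ ℝ ℝ (ContinuousLinearMap.id ℝ ℝ)).continuous.comp
      h1).continuousAt
  · have h1 : Continuous fun p : ℝ × ℝ => ∫ a in (0:ℝ)..p.1, f' p.2 a := by
      refine continuous_parametric_intervalIntegral_of_continuous
        (f := fun (p : ℝ × ℝ) a => f' p.2 a) ?_ continuous_fst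
      exact hf'.comp (by fun_prop : Continuous fun p : (ℝ × ℝ) × ℝ => (p.1.2, p.2))
    exact ((ContinuousLinearMap.smulRightL ℝ ℝ ℝ (ContinuousLinearMap.id ℝ ℝ)).continuous.comp
      h1).continuousAt

theorem Qd_deriv : S_Qd := by
  intro r c v
  have hn := nL_cont r
  have hW := W_cont
  have h1 : HasDerivAt (fun v => ∫ a in (0:ℝ)..(r + v), W (a - v) * nL r (c * a))
      (1 * (W (r + v - v) * nL r (c * (r + v))) +
        ∫ a in (0:ℝ)..(r + v), (a - v) * W (a - v) * nL r (c * a)) v := by
    refine leib (f := fun v a => W (a - v) * nL r (c * a))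
      (f' := fun v a => (a - v) * W (a - v) * nL r (c * a)) ?_ ?_ ?_ ?_
    · unfold Function.uncurry; fun_prop
    · unfold Function.uncurry; fun_prop
    · intro v a
      have h := (W_deriv (a - v)).comp v ((hasDerivAt_id v).const_sub a)
      refine (h.mul_const (nL r (c * a))).congr_deriv ?_
      ring
    · exact (hasDerivAt_id v).const_add r
  have h2 : HasDerivAt (fun v => ∫ a in (0:ℝ)..(r - v), W (a + v) * nL r (c * a))
      (-1 * (W (r - v + v) * nL r (c * (r - v))) +
        ∫ a in (0:ℝ)..(r - v), -((a + v) * W (a + v) * nL r (c * a))) v := by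
    refine leib (f := fun v a => W (a + v) * nL r (c * a))
      (f' := fun v a => -((a + v) * W (a + v) * nL r (c * a))) ?_ ?_ ?_ ?_
    · unfold Function.uncurry; fun_prop
    · unfold Function.uncurry; fun_prop
    · intro v a
      have h := (W_deriv (a + v)).comp v ((hasDerivAt_id v).const_add a)
      refine (h.mul_const (nL r (c * a))).congr_deriv ?_
      ring
    · exact (hasDerivAt_id v).const_sub r
  have h3 := h1.fun_sub h2
  refine h3.congr_deriv ?_
  rw [intervalIntegral.integral_neg]
  unfold Qd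
  have a1 : r + v - v = r := by ring
  have a2 : r - v + v = r := by ring
  rw [a1, a2]
  ring

end Pool.Agent.H356.GSQd
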