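import Pool.Agent.H857.EF.Core

/-!
# S10: Tate classes with matched eigenvalues are products of divisor classes
-/

set_option autoImplicit false

namespace Pool.Agent.H356.EFs10

open Module Polynomial Pool.Agent.W521.Descent Pool.Agent.W521.Density Pool.Agent.W521.Count
  Pool.Agent.X297.UB Pool.Agent.H857.PB Pool.Agent.H857.PA Pool.Agent.H857.HK Pool.Agent.H857.EF

/-- Lifting a permutation of the image of a list. -/
theorem perm_lift {A B : Type*} (f : A → B) {L M : List B} (h : L.Perm M) :
    ∀ W : List A, W.map f = L → ∃ W' : List A, W.Perm W' ∧ W'.map f = M := by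
  induction h with
  | nil => intro W hW; exact ⟨W, List.Perm.refl _, hW⟩
  | cons a _ ih =>
    intro W hW
    cases W with
    | nil => simp at hW
    | cons w W =>
      rw [List.map_cons, List.cons.injEq] at hW
      obtain ⟨W', h1, h2⟩ := ih W hW.2
      exact ⟨w :: W', h1.cons w, by rw [List.map_cons, h2, hW.1]⟩
  | swap a b l =>
    intro W hW
    cases W with
    | nil => simp at hW
    | cons w W =>
      cases W with
      | nil => simp at hW
      | cons v W =>
        rw [List.map_cons, List.map_cons, List.cons.injEq, List.cons.injEq] at hW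
        refine ⟨v :: w :: W, List.Perm.swap _ _ _, ?_⟩
        rw [List.map_cons, List.map_cons, hW.1, hW.2.1, hW.2.2]
  | trans _ _ ih1 ih2 =>
    intro W hW
    obtain ⟨W', h1, h2⟩ := ih1 W hW
    obtain ⟨W'', h3, h4⟩ := ih2 W' h2
    exact ⟨W'', h1.trans h3, h4⟩

section

variable {V : Type} [AddCommGroup V] [Module ℂ V]

theorem iota_anti (u v : V) : ExteriorAlgebra.ι ℂ u * ExteriorAlgebra.ι ℂ v =
    -(ExteriorAlgebra.ι ℂ v * ExteriorAlgebra.ι ℂ u) :=
  eq_neg_of_add_eq_zero_left (ExteriorAlgebra.ι_add_mul_swap u v)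

theorem mem_two {F : V →ₗ[ℂ] V} {Q : ℂ} {u v : V} {μ ν : ℂ} (hu : F u = μ • u)
    (hv : F v = ν • v) (h : μ * ν = Q) :
    ExteriorAlgebra.ι ℂ u * ExteriorAlgebra.ι ℂ v ∈
      Submodule.span ℂ {y : ExteriorAlgebra ℂ V | y ∈ ⋀[ℂ]^2 V ∧
        ExteriorAlgebra.map F y = Q • y} := by
  refine Submodule.subset_span ⟨?_, ?_⟩
  · rw [ExteriorAlgebra.exteriorPower, pow_two]
    exact Submodule.mul_mem_mul (LinearMap.mem_range_self _ _) (LinearMap.mem_range_self _ _)
  · rw [map_mul, ExteriorAlgebra.map_apply_ι, ExteriorAlgebra.map_apply_ι, hu, hv, map_smul,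
      map_smul, smul_mul_smul_comm, h]

/-- The product of eigenvectors with matched eigenvalues. -/
theorem matched_mem {I : Type*} (F : V →ₗ[ℂ] V) (Q : ℂ) (b : I → V) (μ : I → ℂ)
    (hμ : ∀ i, F (b i) = μ i • b i) {L : List ℂ} (hL : Matched (fun y z => y * z = Q) L) :
    ∀ (W : List I) (n : ℕ), W.map μ = L → W.length = 2 * n →
      (W.map fun i => ExteriorAlgebra.ι ℂ (b i)).prod ∈ divisorProducts Q F n := by
  induction hL with
  | nil =>
    intro W n hW hn
    have h0 : W = [] := List.map_eq_nil_iff.1 hW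
    subst h0
    have hn0 : n = 0 := by simp at hn; omega
    subst hn0
    unfold divisorProducts
    rw [pow_zero]
    exact Submodule.one_le.1 le_rfl
  | cons hP _ hperm ih =>
    intro W n hW hn
    obtain ⟨W', h1, h2⟩ := perm_lift μ hperm W hW
    cases W' with
    | nil => simp at h2
    | cons i W' =>
      cases W' with
      | nil => simp at h2
      | cons j W' =>
        rw [List.map_cons, List.map_cons, List.cons.injEq, List.cons.injEq] at h2
        obtain ⟨h3, h4, h5⟩ := h2
        have hlen := h1.length_eq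
        rw [List.length_cons, List.length_cons, hn] at hlen
        obtain ⟨m, rfl⟩ : ∃ m, n = m + 1 := ⟨n - 1, by omega⟩
        have h6 := ih W' m h5 (by omega)
        obtain ⟨c, hc⟩ := Pool.Agent.W484.HS.prod_perm_anti (K := ℂ)
          (h1.map fun i => ExteriorAlgebra.ι ℂ (b i)) (by
            intro x hx y hy
            rw [List.mem_map] at hx hy
            obtain ⟨k, _, rfl⟩ := hx
            obtain ⟨l, _, rfl⟩ := hy
            exact iota_anti _ _)
        rw [hc]
        refine Submodule.smul_mem _ _ ?_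
        rw [List.map_cons, List.map_cons, List.prod_cons, List.prod_cons, ← mul_assoc]
        unfold divisorProducts at h6 ⊢
        rw [pow_succ']
        refine Submodule.mul_mem_mul (mem_two (hμ i) (hμ j) ?_) h6
        rw [h3, h4]
        exact hP

end

theorem s10 : S10 := by
  intro V _ _ _ F E hF Q n s hmat x hx hFx
  classical
  obtain ⟨d, b, μ, hμE, hμ⟩ := Pool.Agent.H925R2.exists_eigenbasis F E hF
  have hμs : ∀ (k : ℕ) (i), (F ^ k) (b i) = (μ i ^ k) • b i := by
    intro k i
    induction k with
    | zero => simp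
    | succ k ih => rw [pow_succ', Module.End.mul_apply, ih, map_smul, hμ, smul_smul, pow_succ]
  set B := b.exteriorPower (2 * n) with hBdef
  set α : Set.powersetCard (Fin d) (2 * n) → ℂ := fun J =>
    ∏ l, μ (Set.powersetCard.ofFinEmbEquiv.symm J l) ^ s with hα
  have hB : ∀ J, exteriorPower.map (2 * n) (F ^ s) (B J) = α J • B J := by
    intro J
    rw [hBdef, exteriorPower.basis_apply, exteriorPower.map_apply_ιMulti_family]
    unfold exteriorPower.ιMulti_family
    have h1 : (⇑(F ^ s) ∘ b) ∘ (Set.powersetCard.ofFinEmbEquiv.symm J) =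
        fun l => (μ (Set.powersetCard.ofFinEmbEquiv.symm J l) ^ s) •
          (b ∘ (Set.powersetCard.ofFinEmbEquiv.symm J)) l := by
      funext l
      simp only [Function.comp_apply, hμs]
    rw [h1]
    exact (exteriorPower.ιMulti ℂ (2 * n)).toMultilinearMap.map_smul_univ _ _
  have hxe : (⟨x, hx⟩ : ⋀[ℂ]^(2 * n) V) ∈
      Module.End.eigenspace (exteriorPower.map (2 * n) (F ^ s)) ((Q ^ n) ^ s) := by
    rw [Module.End.mem_eigenspace_iff]
    apply Subtype.ext
    rw [Pool.Agent.W521.Pole.map_coe]
    exact hFx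
  rw [Pool.Agent.W521.Pole.eigenspace_eq_span B _ α hB] at hxe
  have key : ∀ z : ⋀[ℂ]^(2 * n) V, z ∈ Submodule.span ℂ (Set.range fun i :
      {i // α i = (Q ^ n) ^ s} => B i.1) → (z : ExteriorAlgebra ℂ V) ∈ divisorProducts Q F n := by
    intro z hz
    induction hz using Submodule.span_induction with
    | mem z hz =>
      obtain ⟨⟨J, hJ⟩, rfl⟩ := hz
      simp only
      have e1 : ((B J : ⋀[ℂ]^(2 * n) V) : ExteriorAlgebra ℂ V) =
          ((List.ofFn fun l => Set.powersetCard.ofFinEmbEquiv.symm J l).map
            fun i => ExteriorAlgebra.ι ℂ (b i)).prod := by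
        rw [hBdef, exteriorPower.basis_apply]
        unfold exteriorPower.ιMulti_family
        rw [exteriorPower.ιMulti_apply_coe, ExteriorAlgebra.ιMulti_apply, List.map_ofFn]
        rfl
      rw [e1]
      refine matched_mem F Q b μ hμ (hmat ((List.ofFn fun l =>
        Set.powersetCard.ofFinEmbEquiv.symm J l).map μ) ?_ ?_ ?_) _ n rfl (by simp)
      · intro y hy
        rw [List.mem_map] at hy
        obtain ⟨i, _, rfl⟩ := hy
        exact hμE i
      · simp
      · rw [← hJ, hα, List.map_ofFn, List.prod_ofFn, ← Finset.prod_pow]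
        rfl
    | zero => exact Submodule.zero_mem _
    | add y z _ _ hy hz => exact Submodule.add_mem _ hy hz
    | smul c y _ hy => exact Submodule.smul_mem _ c hy
  exact key _ hxe

end Pool.Agent.H356.EFs10
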