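import Pool.Agent.H857.EF.Core

/-!
# S9: the number of the reducible exotic polynomials
-/

set_option autoImplicit false

namespace Pool.Agent.H356.EFs9

open Module Polynomial Pool.Agent.W521.Descent Pool.Agent.W521.Density Pool.Agent.W521.Count
  Pool.Agent.X297.UB Pool.Agent.H857.PB Pool.Agent.H857.PA Pool.Agent.H857.HK Pool.Agent.H857.EF

section rel

variable {ι κ : Type} [Fintype ι] [Fintype κ]

lemma prod_single [DecidableEq ι] (α : ι → ℂ) (i : ι) (m : ℤ) :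
    ∏ j, α j ^ (2 * (Pi.single i m : ι → ℤ) j) = α i ^ (2 * m) := by
  rw [Finset.prod_eq_single i]
  · rw [Pi.single_eq_same]
  · intro j _ hj
    rw [Pi.single_eq_of_ne hj, mul_zero, zpow_zero]
  · intro h
    exact absurd (Finset.mem_univ i) h

lemma sum_single [DecidableEq ι] (i : ι) (m : ℤ) : ∑ j, (Pi.single i m : ι → ℤ) j = m := by
  rw [Finset.sum_eq_single i]
  · rw [Pi.single_eq_same]
  · intro j _ hj
    rw [Pi.single_eq_of_ne hj]
  · intro h
    exact absurd (Finset.mem_univ i) h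

lemma relZ_single [DecidableEq ι] {q : ℕ} (hq : 0 < q) {α : ι → ℂ} (hα : ∀ i, α i ≠ 0) {i : ι}
    {m : ℤ} (hm : m ≠ 0) (h : RelZ q α (Pi.single i m)) : RelZ q α (Pi.single i 1) := by
  obtain ⟨N, hN, h1⟩ := h
  rw [prod_single, sum_single] at h1
  have hq' : (q : ℂ) ≠ 0 := by exact_mod_cast hq.ne'
  refine ⟨m.natAbs * N, Nat.mul_pos (Int.natAbs_pos.2 hm) hN, ?_⟩
  rw [prod_single, sum_single]
  set u : ℂ := α i ^ 2 / q with hu
  have hu0 : u ≠ 0 := div_ne_zero (pow_ne_zero 2 (hα i)) hq'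
  have h2 : u ^ (m * N) = 1 := by
    have h3 : (α i ^ (2 * m)) ^ N = (α i ^ 2) ^ (m * N) := by
      rw [← zpow_natCast (α i ^ (2 * m)) N, ← zpow_mul, ← zpow_natCast (α i) 2, ← zpow_mul]
      congr 1
      push_cast
      ring
    have h4 : ((q : ℂ) ^ m) ^ N = (q : ℂ) ^ (m * N) := by
      rw [← zpow_natCast ((q : ℂ) ^ m) N, ← zpow_mul]
    rw [h3, h4] at h1
    rw [hu, div_zpow, h1]
    exact div_self (zpow_ne_zero _ hq')
  have h5 : u ^ (m.natAbs * N) = 1 := by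
    rcases Int.natAbs_eq m with h | h
    · rw [← zpow_natCast]
      push_cast
      rw [← Int.natCast_natAbs, ← h]
      exact h2
    · rw [← zpow_natCast]
      push_cast
      rw [← Int.natCast_natAbs]
      have h6 : ((m.natAbs : ℕ) : ℤ) * N = -(m * N) := by
        rw [show ((m.natAbs : ℕ) : ℤ) = -m by omega]
        ring
      rw [h6, zpow_neg, h2, inv_one]
  have h7 : α i ^ (2 * (1 : ℤ)) = u * (q : ℂ) ^ (1 : ℤ) := by
    rw [mul_one, zpow_one, hu, div_mul_cancel₀ _ hq']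
    norm_cast
  rw [h7, mul_pow, h5, one_mul]

lemma relZ_split {q : ℕ} {α : ι → ℂ} {β : κ → ℂ} {e : ι ⊕ κ → ℤ} (h : RelZ q (Sum.elim α β) e) :
    RelZ q (Sum.elim α β) (Sum.elim (fun i => e (Sum.inl i)) (fun i => e (Sum.inr i))) := by
  have h1 : Sum.elim (fun i => e (Sum.inl i)) (fun i => e (Sum.inr i)) = e := by
    funext i
    rcases i with i | i <;> rfl
  rw [h1]
  exact h

lemma relZ_swap {q : ℕ} {α : ι → ℂ} {β : κ → ℂ} {e : ι ⊕ κ → ℤ} (h : RelZ q (Sum.elim α β) e) :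
    RelZ q (Sum.elim β α) (Sum.elim (fun i => e (Sum.inr i)) (fun i => e (Sum.inl i))) := by
  obtain ⟨N, hN, h1⟩ := h
  refine ⟨N, hN, ?_⟩
  rw [Fintype.prod_sum_type, Fintype.sum_sum_type] at h1 ⊢
  simp only [Sum.elim_inl, Sum.elim_inr] at h1 ⊢
  rw [mul_comm, h1, add_comm]

end rel

/-- the set of S7 -/
def TS (p : ℕ) [Fact p.Prime] (a D g : ℕ) {κ : Type} [Fintype κ] (ρ : κ → ℂ) :
    Set (Fin g → ℤ) :=
  {y : Fin g → ℤ | wp (p ^ a) g y ∈ weilPolys (p ^ a) g ∧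
      (∀ z : ℂ, aeval z (wp (p ^ a) g y) = 0 → IsWeilNum p a D 1 z) ∧
      ∃ (e : Fin g → ℤ) (e' : κ → ℤ), (∃ j, e j ≠ 0) ∧
        RelZ (p ^ a) (Sum.elim (labA (p ^ a) g y) ρ) (Sum.elim e e')}

lemma TS_finite (p : ℕ) [hp : Fact p.Prime] (a D g : ℕ) {κ : Type} [Fintype κ] (ρ : κ → ℂ) :
    (TS p a D g ρ).Finite := by
  refine (Finset.finite_toSet (Fintype.piFinset (box (p ^ a) g))).subset ?_
  rintro y ⟨h1, -⟩
  exact mem_box (pow_ne_zero _ hp.out.ne_zero) h1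

lemma union_bound {A B E : Type} (Y : Finset A) (T : A → Set B) (hfin : ∀ y, (T y).Finite)
    (F : A → B → E) {b : ℝ} (hb : ∀ y ∈ Y, ((T y).ncard : ℝ) ≤ b) :
    {f : E | ∃ y ∈ Y, ∃ z ∈ T y, f = F y z}.Finite ∧
      ({f : E | ∃ y ∈ Y, ∃ z ∈ T y, f = F y z}.ncard : ℝ) ≤ Y.card * b := by
  classical
  have h0 : {f : E | ∃ y ∈ Y, ∃ z ∈ T y, f = F y z} = ⋃ y ∈ Y, F y '' T y := by
    ext f
    simp only [Set.mem_ofPred_eq, Set.mem_iUnion, Set.mem_image, exists_prop]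
    constructor
    · rintro ⟨y, hy, z, hz, rfl⟩
      exact ⟨y, hy, z, hz, rfl⟩
    · rintro ⟨y, hy, z, hz, rfl⟩
      exact ⟨y, hy, z, hz, rfl⟩
  rw [h0]
  refine ⟨Y.finite_toSet.biUnion fun y _ => (hfin y).image _, ?_⟩
  have h1 : ((⋃ y ∈ Y, F y '' T y).ncard : ℝ) ≤ ∑ y ∈ Y, ((F y '' T y).ncard : ℝ) := by
    exact_mod_cast Finset.set_ncard_biUnion_le Y (fun y => F y '' T y)
  refine h1.trans ?_
  have h2 : ∑ y ∈ Y, ((F y '' T y).ncard : ℝ) ≤ ∑ _y ∈ Y, b := by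
    refine Finset.sum_le_sum fun y hy => le_trans ?_ (hb y hy)
    exact_mod_cast Set.ncard_image_le (hfin y)
  refine h2.trans ?_
  rw [Finset.sum_const, nsmul_eq_mul]

section prod

variable {p : ℕ} [hp : Fact p.Prime] {a g1 g2 : ℕ}

/-- the exponents for a product -/
lemma key (h3 : S3) (ha : 0 < a) {f : ℤ[X]} {y : Fin g1 → ℤ} {z : Fin g2 → ℤ}
    (hf : f = wp (p ^ a) g1 y * wp (p ^ a) g2 z)
    (hy : wp (p ^ a) g1 y ∈ weilPolys (p ^ a) g1) (hz : wp (p ^ a) g2 z ∈ weilPolys (p ^ a) g2)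
    (hE : ExL (p ^ a) f) :
    ∃ e : Fin g1 ⊕ Fin g2 → ℤ, (∃ i, e i ≠ 0) ∧
      RelZ (p ^ a) (Sum.elim (labA (p ^ a) g1 y) (labA (p ^ a) g2 z)) e ∧ Even (∑ i, e i) ∧
      ∀ i, 2 ≤ |e i| →
        ¬ RelZ (p ^ a) (Sum.elim (labA (p ^ a) g1 y) (labA (p ^ a) g2 z)) (Pi.single i 1) := by
  have hq1 : 1 < p ^ a := Nat.one_lt_pow ha.ne' hp.out.one_lt
  have hq0 : p ^ a ≠ 0 := by omega
  obtain ⟨L, hL0, hLr, hLN, hLp⟩ := hE
  have hn1 : ∀ j, ‖labA (p ^ a) g1 y j‖ ^ 2 = ((p ^ a : ℕ) : ℝ) := fun j =>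
    hy.2.2.2 _ ((lab_root hq0 y _).2 ⟨j, Or.inl rfl⟩)
  have hn2 : ∀ j, ‖labA (p ^ a) g2 z j‖ ^ 2 = ((p ^ a : ℕ) : ℝ) := fun j =>
    hz.2.2.2 _ ((lab_root hq0 z _).2 ⟨j, Or.inl rfl⟩)
  have hpos : (0 : ℝ) < ((p ^ a : ℕ) : ℝ) := by exact_mod_cast Nat.pos_of_ne_zero hq0
  have hne : ∀ {w : ℂ}, ‖w‖ ^ 2 = ((p ^ a : ℕ) : ℝ) → w ≠ 0 := by
    rintro w hw rfl
    rw [norm_zero, zero_pow two_ne_zero] at hw
    exact hpos.ne hw
  have hB : ∀ {g : ℕ} (x : Fin g → ℤ) (j : Fin g), labA (p ^ a) g x j ≠ 0 →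
      labB (p ^ a) g x j = ((p ^ a : ℕ) : ℂ) / labA (p ^ a) g x j := by
    intro g x j h
    rw [eq_div_iff h, mul_comm]
    exact lab_mul (p ^ a) g x j
  obtain ⟨e, he0, heR, heE, -, he2⟩ := h3 (Fin g1 ⊕ Fin g2) (p ^ a) hq1
    (Sum.elim (labA (p ^ a) g1 y) (labA (p ^ a) g2 z))
    (by rintro (j | j); exacts [hn1 j, hn2 j]) L hL0 (by
      intro w hw
      have h1 := hLr w hw
      rw [hf, map_mul, mul_eq_zero] at h1
      rcases h1 with h1 | h1
      · obtain ⟨j, hj⟩ := (lab_root hq0 y w).1 h1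
        refine ⟨Sum.inl j, ?_⟩
        rw [Sum.elim_inl, ← hB y j (hne (hn1 j))]
        exact hj
      · obtain ⟨j, hj⟩ := (lab_root hq0 z w).1 h1
        refine ⟨Sum.inr j, ?_⟩
        rw [Sum.elim_inr, ← hB z j (hne (hn2 j))]
        exact hj) hLN hLp
  exact ⟨e, he0, heR, heE, he2⟩

end prod

theorem s9 (h3 : S3) (h7 : S7) (h8 : S8) : S9 := by
  obtain ⟨DD, hDD⟩ : ∃ DD : ℕ, DD = (2 * 4).factorial := ⟨_, rfl⟩
  have hDD0 : 0 < DD := by rw [hDD]; exact Nat.factorial_pos _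
  obtain ⟨C1, hC1, hT1⟩ := h7 3 (by norm_num) (Fin 1) DD hDD0
  obtain ⟨C2, hC2, hT2⟩ := h7 2 (by norm_num) (Fin 2) DD hDD0
  refine ⟨12 * C1 + 2304 * C2, by positivity, fun p hp a ha => ?_⟩
  classical
  set q : ℕ := p ^ a with hq
  have hq1 : 1 < q := Nat.one_lt_pow ha.ne' hp.out.one_lt
  have hqR : (q : ℝ) = (p : ℝ) ^ a := by rw [hq]; push_cast; rfl
  have hs1 : (1 : ℝ) ≤ Real.sqrt ((p : ℝ) ^ a) := by
    rw [Real.one_le_sqrt, ← hqR]
    exact_mod_cast hq1.le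
  set s : ℝ := Real.sqrt ((p : ℝ) ^ a) with hs
  -- the two families
  set Y1 : Finset (Fin 1 → ℤ) := (Fintype.piFinset (box q 1)).filter fun y =>
    ∀ k, IsWeilNum p a DD 1 (labA q 1 y k) with hY1
  set Y2 : Finset (Fin 2 → ℤ) := (Fintype.piFinset (box q 2)).filter fun y =>
    ∀ k, IsWeilNum p a DD 1 (labA q 2 y k) with hY2
  obtain ⟨hA1, hA2⟩ := union_bound Y1 (fun y => TS p a DD 3 (labA q 1 y))
    (fun y => TS_finite p a _ 3 _) (fun y z => wp q 1 y * wp q 3 z) (b := C1 * s ^ expo 3)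
    (fun y hy => hT1 p a ha (labA q 1 y) (Finset.mem_filter.1 hy).2)
  obtain ⟨hB1, hB2⟩ := union_bound Y2 (fun y => TS p a DD 2 (labA q 2 y))
    (fun y => TS_finite p a _ 2 _) (fun y z => wp q 2 y * wp q 2 z) (b := C2 * s ^ expo 2)
    (fun y hy => hT2 p a ha (labA q 2 y) (Finset.mem_filter.1 hy).2)
  have hsub : {f ∈ newtonWeil p a 4 | (∃ x : Fin 4 → ℤ, f = wp (p ^ a) 4 x ∧
      ¬ Irreducible (mkPoly 4 x)) ∧ ExL (p ^ a) f} ⊆
      {f : ℤ[X] | ∃ y ∈ Y1, ∃ z ∈ TS p a DD 3 (labA q 1 y),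
        f = wp q 1 y * wp q 3 z} ∪
      {f : ℤ[X] | ∃ y ∈ Y2, ∃ z ∈ TS p a DD 2 (labA q 2 y),
        f = wp q 2 y * wp q 2 z} := by
    rintro f ⟨hf, ⟨x, hfx, hirr⟩, hE⟩
    have hroot : ∀ w : ℂ, aeval w f = 0 → IsWeilNum p a DD 1 w := by
      intro w hw
      rw [hDD]
      exact isWeilNum_of_root ha hf hw
    have hfw : wp q 4 x ∈ weilPolys q 4 := by
      rw [hq, ← hfx]; exact hf.1
    rcases h8 q (by omega) x hfw hirr with ⟨y, z, h1, hy, hz⟩ | ⟨y, z, h1, hy, hz⟩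
    · left
      have hfyz : f = wp q 3 z * wp q 1 y := by rw [hfx, ← hq, h1, mul_comm]
      have hry : ∀ w : ℂ, aeval w (wp q 1 y) = 0 → aeval w f = 0 := by
        intro w hw
        rw [hfyz, map_mul, hw, mul_zero]
      have hrz : ∀ w : ℂ, aeval w (wp q 3 z) = 0 → aeval w f = 0 := by
        intro w hw
        rw [hfyz, map_mul, hw, zero_mul]
      obtain ⟨e, he0, heR, heE, he2⟩ := key h3 ha hfyz hz hy hE
      refine ⟨y, ?_, z, ⟨hz, fun w hw => hroot w (hrz w hw), ?_⟩, by rw [hfyz, mul_comm]⟩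
      · rw [hY1, Finset.mem_filter]
        refine ⟨mem_box (by omega) hy, fun k => hroot _ (hry _ ?_)⟩
        exact (lab_root (by omega) y _).2 ⟨k, Or.inl rfl⟩
      · by_cases hz0 : ∃ j : Fin 3, e (Sum.inl j) ≠ 0
        · exact ⟨fun j => e (Sum.inl j), fun j => e (Sum.inr j), hz0, relZ_split heR⟩
        · exfalso
          push Not at hz0
          have he : e = Pi.single (Sum.inr 0) (e (Sum.inr 0)) := by
            funext i
            rcases i with i | i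
            · rw [hz0 i, Pi.single_eq_of_ne (by simp)]
            · have : i = 0 := Subsingleton.elim _ _
              rw [this, Pi.single_eq_same]
          have hm : e (Sum.inr 0) ≠ 0 := by
            obtain ⟨i, hi⟩ := he0
            rcases i with i | i
            · exact absurd (hz0 i) hi
            · have : i = 0 := Subsingleton.elim _ _
              rw [← this]; exact hi
          have hev : Even (e (Sum.inr 0)) := by
            rw [he, sum_single] at heE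
            exact heE
          have habs : 2 ≤ |e (Sum.inr 0)| := by
            obtain ⟨r, hr⟩ := hev
            have hr0 : r ≠ 0 := by
              rintro rfl
              exact hm (by rw [hr]; ring)
            have : 1 ≤ |r| := Int.one_le_abs hr0
            rw [hr, ← two_mul, abs_mul, abs_two]
            linarith
          refine he2 (Sum.inr 0) habs ?_
          have hα : ∀ i, (Sum.elim (labA (p ^ a) 3 z) (labA (p ^ a) 1 y)) i ≠ 0 := by
            rintro (j | j)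
            · intro h0
              have := lab_mul (p ^ a) 3 z j
              rw [Sum.elim_inl] at h0
              rw [h0, zero_mul] at this
              have hqc : ((p ^ a : ℕ) : ℂ) ≠ 0 := by exact_mod_cast (by omega : q ≠ 0)
              exact hqc this.symm
            · intro h0
              have := lab_mul (p ^ a) 1 y j
              rw [Sum.elim_inr] at h0
              rw [h0, zero_mul] at this
              have hqc : ((p ^ a : ℕ) : ℂ) ≠ 0 := by exact_mod_cast (by omega : q ≠ 0)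
              exact hqc this.symm
          refine relZ_single (by omega) hα hm ?_
          rw [← he]
          exact heR
    · right
      have hfyz : f = wp q 2 z * wp q 2 y := by rw [hfx, ← hq, h1, mul_comm]
      have hry : ∀ w : ℂ, aeval w (wp q 2 y) = 0 → aeval w f = 0 := by
        intro w hw
        rw [hfyz, map_mul, hw, mul_zero]
      have hrz : ∀ w : ℂ, aeval w (wp q 2 z) = 0 → aeval w f = 0 := by
        intro w hw
        rw [hfyz, map_mul, hw, zero_mul]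
      obtain ⟨e, he0, heR, heE, he2⟩ := key h3 ha hfyz hz hy hE
      have hyY : y ∈ Y2 := by
        rw [hY2, Finset.mem_filter]
        refine ⟨mem_box (by omega) hy, fun k => hroot _ (hry _ ?_)⟩
        exact (lab_root (by omega) y _).2 ⟨k, Or.inl rfl⟩
      have hzY : z ∈ Y2 := by
        rw [hY2, Finset.mem_filter]
        refine ⟨mem_box (by omega) hz, fun k => hroot _ (hrz _ ?_)⟩
        exact (lab_root (by omega) z _).2 ⟨k, Or.inl rfl⟩
      by_cases hz0 : ∃ j : Fin 2, e (Sum.inl j) ≠ 0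
      · exact ⟨y, hyY, z, ⟨hz, fun w hw => hroot w (hrz w hw), fun j => e (Sum.inl j),
          fun j => e (Sum.inr j), hz0, relZ_split heR⟩, by rw [hfyz, mul_comm]⟩
      · have hy0 : ∃ j : Fin 2, e (Sum.inr j) ≠ 0 := by
          obtain ⟨i, hi⟩ := he0
          rcases i with i | i
          · exact absurd ⟨i, hi⟩ hz0
          · exact ⟨i, hi⟩
        exact ⟨z, hzY, y, ⟨hy, fun w hw => hroot w (hry w hw), fun j => e (Sum.inr j),
          fun j => e (Sum.inl j), hy0, relZ_swap heR⟩, hfyz⟩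
  have hncard : ({f ∈ newtonWeil p a 4 | (∃ x : Fin 4 → ℤ, f = wp (p ^ a) 4 x ∧
      ¬ Irreducible (mkPoly 4 x)) ∧ ExL (p ^ a) f}.ncard : ℝ) ≤
      ({f : ℤ[X] | ∃ y ∈ Y1, ∃ z ∈ TS p a DD 3 (labA q 1 y),
        f = wp q 1 y * wp q 3 z}.ncard : ℝ) +
      ({f : ℤ[X] | ∃ y ∈ Y2, ∃ z ∈ TS p a DD 2 (labA q 2 y),
        f = wp q 2 y * wp q 2 z}.ncard : ℝ) := by
    exact_mod_cast (Set.ncard_le_ncard hsub (hA1.union hB1)).trans (Set.ncard_union_le _ _)
  refine hncard.trans ((add_le_add hA2 hB2).trans ?_)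
  have e3 : expo 3 = 3 := by unfold expo; norm_num
  have e2 : expo 2 = 2 := by unfold expo; norm_num
  have hc1 : (Y1.card : ℝ) ≤ 12 * s := by
    have h1 := card_all_box (q := q) (g := 1) (by omega)
    have h2 : (Y1.card : ℝ) ≤ ((Fintype.piFinset (box q 1)).card : ℝ) := by
      exact_mod_cast Finset.card_filter_le _ _
    have h3 : tot 1 = 1 := rfl
    rw [h3, pow_one, pow_one, pow_one, hqR] at h1
    refine h2.trans (h1.trans (le_of_eq ?_))
    rw [← hs]; norm_num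
  have hc2 : (Y2.card : ℝ) ≤ 2304 * s ^ 3 := by
    have h1 := card_all_box (q := q) (g := 2) (by omega)
    have h2 : (Y2.card : ℝ) ≤ ((Fintype.piFinset (box q 2)).card : ℝ) := by
      exact_mod_cast Finset.card_filter_le _ _
    have h3 : tot 2 = 3 := rfl
    rw [h3, hqR] at h1
    refine h2.trans (h1.trans (le_of_eq ?_))
    rw [← hs]; norm_num
  rw [e3, e2]
  have hs0 : 0 ≤ s := by linarith
  calc (Y1.card : ℝ) * (C1 * s ^ 3) + (Y2.card : ℝ) * (C2 * s ^ 2) ≤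
        (12 * s) * (C1 * s ^ 3) + (2304 * s ^ 3) * (C2 * s ^ 2) := by
        refine add_le_add (mul_le_mul_of_nonneg_right hc1 (by positivity))
          (mul_le_mul_of_nonneg_right hc2 (by positivity))
    _ = 12 * C1 * s ^ 4 + 2304 * C2 * s ^ 5 := by ring
    _ ≤ 12 * C1 * s ^ 5 + 2304 * C2 * s ^ 5 := by
        have h5 : s ^ 4 ≤ s ^ 5 := pow_le_pow_right₀ hs1 (by norm_num)
        have h6 : 12 * C1 * s ^ 4 ≤ 12 * C1 * s ^ 5 := mul_le_mul_of_nonneg_left h5 (by positivity)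
        linarith
    _ = (12 * C1 + 2304 * C2) * s ^ 5 := by ring

end Pool.Agent.H356.EFs9
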