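import Pool.Agent.H316.EM.Stm2

/-!
# Project EM (helper316): quotient of a datum (helper356)
-/

set_option autoImplicit false

namespace Pool.Agent.H356

open Pool.Agent.H316.EM

namespace EMQ

variable {V : Type} [AddCommGroup V] [Module (ZMod 2) V]

/-- the automorphisms which preserve `X` -/
def St (X : Submodule (ZMod 2) V) : Subgroup (Au V) where
  carrier := {u | ∀ x, x ∈ X ↔ u x ∈ X}
  one_mem' := fun _ => Iff.rfl
  mul_mem' := by
    intro a b ha hb x
    exact (hb x).trans (ha (b x))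
  inv_mem' := by
    intro a ha x
    have h := ha (a⁻¹ x)
    have e : a (a⁻¹ x) = x := a.apply_symm_apply x
    rw [e] at h
    exact h.symm

theorem mem_St (X : Submodule (ZMod 2) V) (u : Au V) : u ∈ St X ↔ ∀ x, x ∈ X ↔ u x ∈ X := Iff.rfl

theorem St_map {X : Submodule (ZMod 2) V} {u : Au V} (h : u ∈ St X) :
    X.map (u : V →ₗ[ZMod 2] V) = X := by
  ext x
  constructor
  · rintro ⟨y, hy, rfl⟩
    exact (h y).1 hy
  · intro hx
    have e : u (u⁻¹ x) = x := u.apply_symm_apply x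
    refine ⟨u⁻¹ x, ?_, e⟩
    refine (h _).2 ?_
    rw [e]
    exact hx

/-- the induced automorphism of the quotient -/
noncomputable def q (X : Submodule (ZMod 2) V) : St X →* Au (V ⧸ X) where
  toFun u := Submodule.Quotient.equiv X X u.1 (St_map u.2)
  map_one' := by
    apply LinearEquiv.ext
    intro x
    obtain ⟨v, rfl⟩ := Submodule.mkQ_surjective X x
    rfl
  map_mul' a b := by
    apply LinearEquiv.ext
    intro x
    obtain ⟨v, rfl⟩ := Submodule.mkQ_surjective X x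
    rfl

theorem q_apply (X : Submodule (ZMod 2) V) (u : St X) (v : V) : q X u (X.mkQ v) = X.mkQ (u.1 v) := rfl

theorem Au_ext_mk (X : Submodule (ZMod 2) V) (a b : Au (V ⧸ X))
    (h : ∀ v, a (X.mkQ v) = b (X.mkQ v)) : a = b := by
  apply LinearEquiv.ext
  intro x
  obtain ⟨v, rfl⟩ := Submodule.mkQ_surjective X x
  exact h v

end EMQ

open EMQ

theorem em_quo : S_QUO := by
  intro k V _ _ D j hj X hX hinf
  obtain ⟨hXL, hXβ, hXt⟩ := hX
  -- the elements of the stabilizer
  have hL : D.L ≤ St X := by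
    intro l hl x
    constructor
    · exact hXL l hl x
    · intro h
      have := hXL l⁻¹ (D.L.inv_mem hl) _ h
      have e : l⁻¹ (l x) = x := l.symm_apply_apply x
      rwa [e] at this
  have hβ : ∀ b, D.β b ∈ St X := by
    intro b x
    constructor
    · exact hXβ b x
    · intro h
      have := hXβ b⁻¹ _ h
      have e : D.β b⁻¹ (D.β b x) = x := by
        rw [map_inv]
        exact (D.β b).symm_apply_apply x
      rwa [e] at this
  have ht : D.t ^ j ∈ St X := fun x => hXt x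
  -- powers of t
  have htβ : ∀ (i : ℕ) (b : B), D.t ^ i * D.β b * (D.t ^ i)⁻¹ = D.β ((th ^ (k * i)) b) := by
    intro i
    induction i with
    | zero => intro b; simp
    | succ i ih =>
      intro b
      have e1 : D.t ^ (i + 1) * D.β b * (D.t ^ (i + 1))⁻¹ =
          D.t * (D.t ^ i * D.β b * (D.t ^ i)⁻¹) * D.t⁻¹ := by
        rw [pow_succ' D.t i]
        group
      rw [e1, ih, D.tβ]
      congr 1
      have e2 : th ^ (k * (i + 1)) = th ^ k * th ^ (k * i) := by
        rw [← pow_add]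
        congr 1
        ring
      rw [e2]
      rfl
  have hLt : ∀ (i : ℕ) (l : Au V), l ∈ D.L ↔ D.t ^ i * l * (D.t ^ i)⁻¹ ∈ D.L := by
    intro i
    induction i with
    | zero => intro l; simp
    | succ i ih =>
      intro l
      have e1 : D.t ^ (i + 1) * l * (D.t ^ (i + 1))⁻¹ =
          D.t * (D.t ^ i * l * (D.t ^ i)⁻¹) * D.t⁻¹ := by
        rw [pow_succ' D.t i]
        group
      rw [e1, ih l]
      exact D.Lt _
  have hAt : ∀ (i : ℕ) (a : KK), a ∈ D.A₀ ↔ (tA ^ (k * i)) a ∈ D.A₀ := by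
    intro i
    induction i with
    | zero => intro a; simp
    | succ i ih =>
      intro a
      have e2 : tA ^ (k * (i + 1)) = tA ^ k * tA ^ (k * i) := by
        rw [← pow_add]
        congr 1
        ring
      rw [e2, ih a]
      exact D.A₀t _
  have hαt : ∀ (i : ℕ) (a : KK), a ∈ D.A₀ → D.α ((tA ^ (k * i)) a) = (D.t ^ i) (D.α a) := by
    intro i
    induction i with
    | zero => intro a _; simp
    | succ i ih =>
      intro a ha
      have e2 : (tA ^ (k * (i + 1))) a = (tA ^ k) ((tA ^ (k * i)) a) := by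
        have : tA ^ (k * (i + 1)) = tA ^ k * tA ^ (k * i) := by
          rw [← pow_add]
          congr 1
          ring
        rw [this]
        rfl
      rw [e2, D.αt _ ((hAt i a).1 ha), ih a ha, pow_succ' D.t i]
      rfl
  -- the homomorphisms
  set qL : D.L →* Au (V ⧸ X) := (q X).comp (Subgroup.inclusion hL) with hqL
  set β' : B →* Au (V ⧸ X) := (q X).comp (D.β.codRestrict (St X) hβ) with hβ'
  set t' : Au (V ⧸ X) := q X ⟨D.t ^ j, ht⟩ with ht'
  have qL_apply : ∀ (l : D.L) (v : V), qL l (X.mkQ v) = X.mkQ (l.1 v) := fun l v => rfl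
  have β_apply : ∀ b (v : V), β' b (X.mkQ v) = X.mkQ (D.β b v) := fun b v => rfl
  have t_apply : ∀ v : V, t' (X.mkQ v) = X.mkQ ((D.t ^ j) v) := fun v => rfl
  refine ⟨{
    L := qL.range
    Lfg := ?_
    Lcomm := ?_
    β := β'
    t := t'
    tβ := ?_
    Lβ := ?_
    Lt := ?_
    fg := ?_
    A₀ := D.A₀
    A₀le := D.A₀le
    A₀fin := D.A₀fin
    A₀β := D.A₀β
    A₀t := hAt j
    α := fun a => X.mkQ (D.α a)
    αadd := ?_
    αβ := ?_
    αt := ?_
    inf := ?_ }, rfl, fun a => rfl, β_apply, t_apply, ?_, ?_⟩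
  · have : Group.FG D.L := (Group.fg_iff_subgroup_fg D.L).2 D.Lfg
    exact (Group.fg_iff_subgroup_fg _).1 (Group.fg_range qL)
  · rintro _ ⟨x, rfl⟩ _ ⟨y, rfl⟩
    rw [← map_mul, ← map_mul]
    congr 1
    exact Subtype.ext (D.Lcomm x.1 x.2 y.1 y.2)
  · intro b
    have e : (⟨D.t ^ j, ht⟩ : St X) * (D.β.codRestrict (St X) hβ b) * (⟨D.t ^ j, ht⟩ : St X)⁻¹ =
        D.β.codRestrict (St X) hβ ((th ^ (k * j)) b) := Subtype.ext (htβ j b)
    have e2 := congrArg (q X) e
    rw [map_mul, map_mul, map_inv] at e2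
    exact e2
  · rintro b _ ⟨l, rfl⟩
    refine ⟨⟨D.β b * l.1 * (D.β b)⁻¹, D.Lβ b l.1 l.2⟩, ?_⟩
    have e : Subgroup.inclusion hL ⟨D.β b * l.1 * (D.β b)⁻¹, D.Lβ b l.1 l.2⟩ =
        (D.β.codRestrict (St X) hβ b) * (Subgroup.inclusion hL l) *
          (D.β.codRestrict (St X) hβ b)⁻¹ := Subtype.ext rfl
    have e2 := congrArg (q X) e
    rw [map_mul, map_mul, map_inv] at e2
    exact e2
  · intro l'
    constructor
    · rintro ⟨l, rfl⟩
      refine ⟨⟨D.t ^ j * l.1 * (D.t ^ j)⁻¹, (hLt j l.1).1 l.2⟩, ?_⟩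
      have e : Subgroup.inclusion hL ⟨D.t ^ j * l.1 * (D.t ^ j)⁻¹, (hLt j l.1).1 l.2⟩ =
          (⟨D.t ^ j, ht⟩ : St X) * (Subgroup.inclusion hL l) * (⟨D.t ^ j, ht⟩ : St X)⁻¹ :=
        Subtype.ext rfl
      have e2 := congrArg (q X) e
      rw [map_mul, map_mul, map_inv] at e2
      exact e2
    · rintro ⟨m, hm⟩
      have hmem : (D.t ^ j)⁻¹ * m.1 * (D.t ^ j) ∈ D.L := by
        rw [hLt j]
        have : D.t ^ j * ((D.t ^ j)⁻¹ * m.1 * D.t ^ j) * (D.t ^ j)⁻¹ = m.1 := by group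
        rw [this]
        exact m.2
      refine ⟨⟨_, hmem⟩, ?_⟩
      have e : Subgroup.inclusion hL ⟨_, hmem⟩ =
          (⟨D.t ^ j, ht⟩ : St X)⁻¹ * (Subgroup.inclusion hL m) * (⟨D.t ^ j, ht⟩ : St X) :=
        Subtype.ext rfl
      have e2 := congrArg (q X) e
      rw [map_mul, map_mul, map_inv] at e2
      have e3 : qL ⟨_, hmem⟩ = t'⁻¹ * qL m * t' := e2
      rw [e3, hm]
      group
  · obtain ⟨S, hS⟩ := D.fg
    classical
    refine ⟨S.image X.mkQ, ?_⟩
    have h1 : (Submodule.span (ZMod 2) {x : V | ∃ l ∈ D.L, ∃ s ∈ S, x = l s}).map X.mkQ = ⊤ := by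
      rw [hS, Submodule.map_top, Submodule.range_mkQ]
    rw [eq_top_iff, ← h1, Submodule.map_span]
    refine Submodule.span_mono ?_
    rintro _ ⟨_, ⟨l, hl, s, hs, rfl⟩, rfl⟩
    exact ⟨qL ⟨l, hl⟩, ⟨_, rfl⟩, X.mkQ s, Finset.mem_image_of_mem _ hs, rfl⟩
  · intro a ha a' ha'
    show X.mkQ (D.α (a + a')) = _
    rw [D.αadd a ha a' ha', map_add]
  · intro b a ha
    show X.mkQ (D.α (mB b a)) = β' b (X.mkQ (D.α a))
    rw [D.αβ b a ha, β_apply]
  · intro a ha
    show X.mkQ (D.α ((tA ^ (k * j)) a)) = t' (X.mkQ (D.α a))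
    rw [hαt j a ha, t_apply]
  · -- the image is infinite
    intro hfin
    apply hinf
    set g : D.A₀ →+ V ⧸ X :=
      { toFun := fun a => X.mkQ (D.α a.1)
        map_zero' := by
          show X.mkQ (D.α 0) = 0
          rw [D.αzero, map_zero]
        map_add' := fun a b => by
          show X.mkQ (D.α (a.1 + b.1)) = _
          rw [D.αadd a.1 a.2 b.1 b.2, map_add] } with hg
    have hker : (D.pre X).toAddSubgroup.addSubgroupOf D.A₀.toAddSubgroup = g.ker := by
      ext a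
      rw [AddSubgroup.mem_addSubgroupOf, AddMonoidHom.mem_ker]
      show a.1 ∈ D.pre X ↔ X.mkQ (D.α a.1) = 0
      rw [D.mem_pre, Submodule.mkQ_apply, Submodule.Quotient.mk_eq_zero]
      exact ⟨fun h => h.2, fun h => ⟨a.2, h⟩⟩
    have hrange : Finite g.range := by
      have : (g.range : Set (V ⧸ X)) ⊆ (fun a => X.mkQ (D.α a)) '' D.A₀ := by
        rintro _ ⟨a, rfl⟩
        exact ⟨a.1, a.2, rfl⟩
      exact (hfin.subset this).to_subtype
    have h1 : (D.pre X).toAddSubgroup.relIndex D.A₀.toAddSubgroup ≠ 0 := by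
      unfold AddSubgroup.relIndex
      rw [hker, AddSubgroup.index_ker]
      exact Nat.card_pos.ne'
    have h2 : D.A₀.toAddSubgroup.relIndex AA.toAddSubgroup ≠ 0 := D.A₀fin
    have h3 := AddSubgroup.relIndex_mul_relIndex (D.pre X).toAddSubgroup D.A₀.toAddSubgroup
      AA.toAddSubgroup (fun a ha => ha.1) D.A₀le
    show (D.pre X).toAddSubgroup.relIndex AA.toAddSubgroup ≠ 0
    rw [← h3]
    exact mul_ne_zero h1 h2
  · rintro _ ⟨l, rfl⟩
    exact ⟨l.1, l.2, fun v => rfl⟩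
  · intro l hl
    exact ⟨qL ⟨l, hl⟩, ⟨_, rfl⟩, fun v => rfl⟩

end Pool.Agent.H356

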