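import Pool.Agent.H867.FT.Gen3

/-!
Project FT (problem MP_7dd379_ag), task INT: integrality of `ω / π²` and `θ / π²`.
-/

set_option autoImplicit false

namespace Pool.Agent.H356.FT867

open Polynomial

theorem int_aux {V W K : Type} [CommRing V] [CommRing W] [Algebra V W] [Field K]
    [Algebra W K] [Algebra V K] [IsScalarTower V W K] [IsIntegralClosure W V K] (p q r : V) (y : K)
    (h : y ^ 3 + algebraMap V K p * y ^ 2 + algebraMap V K q * y + algebraMap V K r = 0) :
    ∃ w : W, algebraMap W K w = y := by
  have hi : IsIntegral V y := by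
    refine ⟨X ^ 3 + C p * X ^ 2 + C q * X + C r, ?_, ?_⟩
    · nontriviality V
      monicity!
    · rw [← h]
      simp only [eval₂_add, eval₂_mul, eval₂_C, eval₂_X, eval₂_X_pow]
  exact IsIntegralClosure.isIntegral_iff.mp hi

theorem int : Pool.Agent.H867.FT.S_INT := by
  intro V L W K _ _ _ _ _ _ _ _ _ _ _ _ _ _ _ _ _ π a b c d x hπ ha hx hda hdb hdc hdd hF
  obtain ⟨a', rfl⟩ := hda
  obtain ⟨b', rfl⟩ := hdb
  obtain ⟨c', rfl⟩ := hdc
  obtain ⟨d', rfl⟩ := hdd
  have hinj : Function.Injective (algebraMap V K) := by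
    rw [IsScalarTower.algebraMap_eq V L K]
    exact (algebraMap L K).injective.comp (IsFractionRing.injective V L)
  have hπK : algebraMap V K π ^ 2 ≠ 0 := by
    apply pow_ne_zero
    intro h
    exact hπ (hinj (by rw [h, map_zero]))
  simp only [map_mul, map_pow] at hF ⊢
  have hF' : algebraMap V K a' * x ^ 3 + algebraMap V K b' * x ^ 2 + algebraMap V K c' * x +
      algebraMap V K d' = 0 := by
    apply mul_left_cancel₀ hπK
    rw [mul_zero, ← hF]
    ring
  constructor
  · obtain ⟨w, hw⟩ := int_aux (W := W) b' (a' * c') (a' ^ 2 * d') (algebraMap V K a' * x) (by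
      simp only [map_mul, map_pow]
      linear_combination (algebraMap V K a' ^ 2) * hF')
    exact ⟨w, by rw [hw]; ring⟩
  · obtain ⟨w, hw⟩ := int_aux (W := W) (-c') (b' * d') (-(a' * d' ^ 2))
      (algebraMap V K a' * x ^ 2 + algebraMap V K b' * x + algebraMap V K c') (by
      simp only [map_mul, map_pow, map_neg]
      have ht : (algebraMap V K a' * x ^ 2 + algebraMap V K b' * x + algebraMap V K c') * x =
          -algebraMap V K d' := by linear_combination hF'
      have hd : algebraMap V K d' =
          -((algebraMap V K a' * x ^ 2 + algebraMap V K b' * x + algebraMap V K c') * x) := by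
        rw [ht, neg_neg]
      rw [hd]
      ring)
    exact ⟨w, by rw [hw]; ring⟩

end Pool.Agent.H356.FT867
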