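import Pool.Agent.H416.OF.Tasks

/-! # OF8 (helper356): automorphisms which map generators to conjugates of letters -/

set_option autoImplicit false
set_option linter.unusedSectionVars false

namespace Pool.Agent.H356.OF8

open Pool.Agent.H416.OF

universe u

variable {α : Type u} [DecidableEq α]

/-- the exponent of the generator `x` -/
def ex (x : α) : FreeGroup α →* Multiplicative ℤ :=
  FreeGroup.lift fun k => if k = x then Multiplicative.ofAdd (1 : ℤ) else 1

theorem ex_of (x k : α) : ex x (FreeGroup.of k) = if k = x then Multiplicative.ofAdd (1 : ℤ) else 1 :=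
  FreeGroup.lift_apply_of

theorem mk_true (x : α) : FreeGroup.mk [(x, true)] = FreeGroup.of x := rfl

theorem mk_false (x : α) : FreeGroup.mk [(x, false)] = (FreeGroup.of x)⁻¹ := rfl

theorem mk_cases (y : α × Bool) : FreeGroup.mk [y] = FreeGroup.of y.1 ∨
    FreeGroup.mk [y] = (FreeGroup.of y.1)⁻¹ := by
  obtain ⟨x, b⟩ := y
  cases b
  · exact Or.inr rfl
  · exact Or.inl rfl

theorem ex_ne {x : α} {y : α × Bool} (h : y.1 ≠ x) : ex x (FreeGroup.mk [y]) = 1 := by
  rcases mk_cases y with h1 | h1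
  · rw [h1, ex_of, if_neg h]
  · rw [h1, map_inv, ex_of, if_neg h, inv_one]

theorem ex_zpow {y : α × Bool} {a : ℤ} (h : ex y.1 (FreeGroup.mk [y]) ^ a = 1) : a = 0 := by
  rcases mk_cases y with h1 | h1
  · rw [h1, ex_of, if_pos rfl, ← ofAdd_zsmul] at h
    have h2 := congrArg Multiplicative.toAdd h
    rw [toAdd_ofAdd, toAdd_one, smul_eq_mul, mul_one] at h2
    exact h2
  · rw [h1, map_inv, ex_of, if_pos rfl, inv_zpow, inv_eq_one, ← ofAdd_zsmul] at h
    have h2 := congrArg Multiplicative.toAdd h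
    rw [toAdd_ofAdd, toAdd_one, smul_eq_mul, mul_one] at h2
    exact h2

theorem conj_comm {A : Type*} [CommGroup A] (χ : FreeGroup α →* A) (h w : FreeGroup α) :
    χ (h * w * h⁻¹) = χ w := by
  rw [map_mul, map_mul, map_inv, mul_comm (χ h) (χ w), mul_assoc, mul_inv_cancel, mul_one]

/-- part (1) -/
theorem letters_ne (ψ : MulAut (FreeGroup α)) {i j : α} (hij : i ≠ j) {h h' : FreeGroup α}
    {y z : α × Bool} (h1 : ψ (FreeGroup.of i) = h * FreeGroup.mk [y] * h⁻¹)
    (h2 : ψ (FreeGroup.of j) = h' * FreeGroup.mk [z] * h'⁻¹) : y.1 ≠ z.1 := by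
  intro hyz
  obtain ⟨χ, hχ⟩ : ∃ χ : FreeGroup α →* Multiplicative ℤ, ∀ w, χ (ψ w) = ex i w :=
    ⟨(ex i).comp (ψ⁻¹ : MulAut (FreeGroup α)).toMonoidHom, fun w => by
      rw [MonoidHom.comp_apply]
      exact congrArg (ex i) (MulAut.inv_apply_self _ ψ w)⟩
  have e1 : χ (FreeGroup.mk [y]) = Multiplicative.ofAdd (1 : ℤ) := by
    rw [← conj_comm χ h, ← h1, hχ, ex_of, if_pos rfl]
  have e2 : χ (FreeGroup.mk [z]) = 1 := by
    rw [← conj_comm χ h', ← h2, hχ, ex_of, if_neg (fun hc => hij hc.symm)]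
  have e3 : χ (FreeGroup.of z.1) = 1 := by
    rcases mk_cases z with h3 | h3
    · rwa [h3] at e2
    · rwa [h3, map_inv, inv_eq_one] at e2
  have e4 : χ (FreeGroup.mk [y]) = 1 := by
    rcases mk_cases y with h3 | h3
    · rw [h3, hyz, e3]
    · rw [h3, map_inv, hyz, e3, inv_one]
  rw [e1] at e4
  have e5 := congrArg Multiplicative.toAdd e4
  rw [toAdd_ofAdd, toAdd_one] at e5
  exact one_ne_zero e5

theorem conj_zpow {G : Type*} [Group G] (u y : G) (a : ℤ) : u * y ^ a * y * (u * y ^ a)⁻¹ = u * y * u⁻¹ := by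
  have h1 : y ^ a * y = y * y ^ a := (Commute.zpow_self y a).eq
  rw [mul_assoc u, h1, mul_inv_rev, ← mul_assoc, ← mul_assoc, mul_assoc (u * y), mul_inv_cancel,
    mul_one]

theorem OF8_holds : S_OF8.{u} := by
  intro α _ ψ hC hP
  choose v y hv using hC
  rcases subsingleton_or_nontrivial α with hs | hn
  · rcases isEmpty_or_nonempty α with he | ⟨⟨i⟩⟩
    · exact ⟨1, fun i => he.elim i⟩
    · refine ⟨v i, fun k => ⟨y k, ?_⟩⟩
      rw [Subsingleton.elim i k]
      exact hv k
  · obtain ⟨i, j, hij⟩ := exists_pair_ne α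
    obtain ⟨a, b, hab⟩ := hP i j (v i) (v j) (y i) (y j) hij (letters_ne ψ hij (hv i) (hv j))
      (hv i) (hv j)
    obtain ⟨h, hh⟩ : ∃ h, h = v i * FreeGroup.mk [y i] ^ a := ⟨_, rfl⟩
    have hh' : h = v j * FreeGroup.mk [y j] ^ (-b) := by
      have e1 : v j = v i * (FreeGroup.mk [y i] ^ a * FreeGroup.mk [y j] ^ b) := by
        rw [← hab, mul_inv_cancel_left]
      rw [e1, hh, zpow_neg, ← mul_assoc, mul_inv_cancel_right]
    have hi : ψ (FreeGroup.of i) = h * FreeGroup.mk [y i] * h⁻¹ := by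
      rw [hh, conj_zpow]
      exact hv i
    have hj : ψ (FreeGroup.of j) = h * FreeGroup.mk [y j] * h⁻¹ := by
      rw [hh', conj_zpow]
      exact hv j
    refine ⟨h, fun k => ⟨y k, ?_⟩⟩
    by_cases hki : i = k
    · subst hki
      exact hi
    by_cases hkj : j = k
    · subst hkj
      exact hj
    have n1 := letters_ne ψ hki hi (hv k)
    have n2 := letters_ne ψ hkj hj (hv k)
    have n3 := letters_ne ψ hij hi hj
    obtain ⟨a1, b1, h1⟩ := hP i k h (v k) (y i) (y k) hki n1 hi (hv k)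
    obtain ⟨a2, b2, h2⟩ := hP j k h (v k) (y j) (y k) hkj n2 hj (hv k)
    have h3 := congrArg (ex (y i).1) (h1.symm.trans h2)
    rw [map_mul, map_mul, map_zpow, map_zpow, map_zpow, map_zpow, ex_ne (Ne.symm n1),
      ex_ne (Ne.symm n3), one_zpow, one_zpow, one_zpow, mul_one, mul_one] at h3
    have h4 := ex_zpow h3
    rw [h4, zpow_zero, one_mul] at h1
    have h5 : v k = h * FreeGroup.mk [y k] ^ b1 := by
      rw [← h1, mul_inv_cancel_left]
    have h6 := hv k
    rw [h5, conj_zpow] at h6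
    exact h6

end Pool.Agent.H356.OF8
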