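import Pool.Agent.H492.RZ.Stm
import Pool.Agent.H492.UB.Final

/-!
# RZ: `sInd`, the number of the indecomposable values
-/

set_option autoImplicit false

namespace Pool.Agent.H492.RZ

open Module
open Pool.Agent.H492.UB (sh ps BA ev)
open Pool.Agent.Q187.ZD.DS (Z InH0 InH1 total shuffles stuffles index word reg regWord element mzv)

namespace H356Ind

open MvPolynomial in
theorem coeff_pol {r e : ℕ} {F : List Bool → ℚ} (h : pol r e F = 0) (n : Fin r → ℕ)
    (hn : ∑ i, n i = e) : F (word ((List.ofFn n).map (· + 1)).reverse) = 0 := by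
  have h1 : coeff (Finsupp.equivFunOnFinite.symm n) (pol r e F) = 0 := by rw [h, coeff_zero]
  unfold pol at h1
  rw [coeff_sum] at h1
  have h2 : ∀ n' : Fin r → ℕ, coeff (Finsupp.equivFunOnFinite.symm n)
      (C (F (word ((List.ofFn n').map (· + 1)).reverse)) *
        ∏ i, (X i : MvPolynomial (Fin r) ℚ) ^ n' i) =
      if n' = n then F (word ((List.ofFn n').map (· + 1)).reverse) else 0 := by
    intro n'
    have h3 : (∏ i, (X i : MvPolynomial (Fin r) ℚ) ^ n' i) =
        monomial (Finsupp.equivFunOnFinite.symm n') 1 := by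
      rw [monomial_eq, C_1, one_mul, Finsupp.prod_fintype]
      · simp
      · intro i; simp
    rw [h3, C_mul_monomial, mul_one, coeff_monomial]
    by_cases hkk : n' = n
    · rw [if_pos (by rw [hkk]), if_pos hkk]
    · rw [if_neg (fun h4 => hkk (Finsupp.equivFunOnFinite.symm.injective h4)), if_neg hkk]
  rw [Finset.sum_congr rfl fun k' _ => h2 k', Finset.sum_ite_eq', if_pos] at h1
  · exact h1
  · rw [Finset.Nat.mem_antidiagonalTuple]; exact hn

theorem index_rep (n : ℕ) : ∀ (c : ℕ) (u : List Bool),
    index c (List.replicate n false ++ true :: u) = (c + n + 1) :: index 0 u := by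
  induction n with
  | zero => intro c u; rfl
  | succ n ih =>
    intro c u
    rw [List.replicate_succ, List.cons_append]
    show index (c + 1) (List.replicate n false ++ true :: u) = _
    rw [ih (c + 1) u]
    congr 1
    omega

theorem index_word : ∀ s : List ℕ, (∀ a ∈ s, 1 ≤ a) → index 0 (word s) = s
  | [], _ => rfl
  | k :: s, h => by
    have hk : 1 ≤ k := h k (by simp)
    show index 0 (List.replicate (k - 1) false ++ true :: word s) = k :: s
    rw [index_rep, index_word s (fun a ha => h a (by simp [ha]))]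
    congr 1
    omega

theorem zr_word (s : List ℕ) (hs : IsAdm s) : zr (word s) = mzv s := by
  have hreg : reg (Finsupp.single (word s) 1) = Finsupp.single (word s) 1 := by
    show Finsupp.linearCombination ℚ regWord (Finsupp.single (word s) 1) = _
    rw [Finsupp.linearCombination_single, one_smul]
    cases s with
    | nil => rfl
    | cons k s =>
      have hk1 : 1 ≤ k := hs.1 k (by simp)
      have hk2 : k ≠ 1 := fun h => hs.2 (by simp [h])
      obtain ⟨n, rfl⟩ : ∃ n, k = n + 2 := ⟨k - 2, by omega⟩
      have hw : word ((n + 2) :: s) = false :: (List.replicate n false ++ true :: word s) := by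
        show List.replicate (n + 2 - 1) false ++ true :: word s = _
        rw [show n + 2 - 1 = n + 1 by omega, List.replicate_succ, List.cons_append]
      rw [hw]
      unfold regWord
      have e1 : (false :: (List.replicate n false ++ true :: word s)).dropWhile id =
          false :: (List.replicate n false ++ true :: word s) := by
        rw [List.dropWhile_cons]; rfl
      have e2 : (false :: (List.replicate n false ++ true :: word s)).takeWhile id = [] := by
        rw [List.takeWhile_cons]; rfl
      rw [e1, e2]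
      simp only [List.length_nil, pow_zero, one_smul, Pool.Agent.Q187.ZD.DS.shuffles_nil,
        List.map_cons, List.map_nil]
      unfold total
      simp
  unfold zr
  rw [hreg]
  show Finsupp.linearCombination ℚ (fun w => mzv (index 0 w)) (Finsupp.single (word s) 1) = _
  rw [Finsupp.linearCombination_single, one_smul, index_word s hs.1]

theorem sum_pred : ∀ l : List ℕ, (∀ a ∈ l, 1 ≤ a) → (l.map (· - 1)).sum + l.length = l.sum
  | [], _ => rfl
  | a :: l, h => by
    have ha : 1 ≤ a := h a (by simp)
    have ih := sum_pred l (fun b hb => h b (by simp [hb]))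
    simp only [List.map_cons, List.sum_cons, List.length_cons]
    omega

theorem map_pred : ∀ l : List ℕ, (∀ a ∈ l, 1 ≤ a) → (l.map (· - 1)).map (· + 1) = l
  | [], _ => rfl
  | a :: l, h => by
    have ha : 1 ≤ a := h a (by simp)
    have ih := map_pred l (fun b hb => h b (by simp [hb]))
    simp only [List.map_cons, ih]
    congr 1
    omega

theorem pol_mem (h1 : SMul) (h2 : SRegFil) (h3 : SStuf) (h4 : SNon) (h5 : SAbs) (r k : ℕ)
    (hr : 2 ≤ r) (hk : r < k) (lam : ℝ →ₗ[ℚ] ℚ)
    (hlam : ∀ x ∈ Fil (r - 1) k ⊔ Prd r k, lam x = 0) :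
    pol r (k - r) (fun w => lam (zr w)) ∈ Pool.Agent.H492.UB.W ℚ r (k - r) := by
  refine h5 r (k - r) _ hr ?_ ?_
  · intro u v hu hv hcount hlen
    have e1 : ((shuffles u v).map fun w => lam (zr w)).sum =
        lam ((shuffles u v).map zr).sum := by
      rw [map_list_sum, List.map_map]
      rfl
    rw [e1, h1 u v (Or.inr hu) (Or.inr hv)]
    apply hlam
    refine Submodule.mem_sup_right (Submodule.subset_span ?_)
    have htrue : ∀ w : List Bool, w.getLast? = some true → 1 ≤ w.count true := by
      intro w hw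
      exact List.count_pos_iff.2 (List.mem_of_getLast? hw)
    rw [List.count_append] at hcount
    rw [List.length_append] at hlen
    exact ⟨u.count true, v.count true, u.length, v.length, htrue u hu, htrue v hv, hcount,
      by omega, zr u, h2 u (Or.inr hu), zr v, h2 v (Or.inr hv), rfl⟩
  · intro u v hu hv hall hlen hsum
    classical
    set G : List ℕ → ℚ := fun w => if w.sum = k ∧ ∀ a ∈ w, 1 ≤ a then lam (zr (word w)) else 0
      with hG
    have hGpos : ∀ u v : List ℕ, (u ++ v).sum = k → (∀ a ∈ u ++ v, 1 ≤ a) → ∀ w ∈ sh u v,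
        G w = lam (zr (word w)) := by
      intro u v hs ha w hw
      have hp := Pool.Agent.H492.UB.sh_perm u v w hw
      rw [hG]
      simp only
      rw [if_pos ⟨by rw [hp.sum_eq, hs], fun a haw => ha a (hp.mem_iff.1 haw)⟩]
    have hmain := h4 ℕ ℚ 1 G r ?_ ?_ u v hu hv hlen
    · rw [← hmain]
      congr 1
      refine List.map_congr_left fun w hw => ?_
      exact (hGpos u v (by rw [List.sum_append]; omega) hall w hw).symm
    · rw [hG]
      simp only
      rw [if_neg]
      rintro ⟨h6, -⟩
      rw [List.sum_replicate] at h6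
      simp at h6
      omega
    · intro u v hu hv hhead hlen
      by_cases hc : (u ++ v).sum = k ∧ ∀ a ∈ u ++ v, 1 ≤ a
      · have e1 : ((sh u v).map G).sum = lam ((sh u v).map fun w => zr (word w)).sum := by
          rw [map_list_sum, List.map_map]
          congr 1
          refine List.map_congr_left fun w hw => ?_
          exact hGpos u v hc.1 hc.2 w hw
        rw [e1]
        apply hlam
        have h6 := h3 u v hu hv hc.2 hhead
        rw [hlen, show u.sum + v.sum = k by rw [← List.sum_append]; exact hc.1] at h6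
        exact h6
      · have e1 : ∀ w ∈ sh u v, G w = 0 := by
          intro w hw
          have hp := Pool.Agent.H492.UB.sh_perm u v w hw
          rw [hG]
          simp only
          rw [if_neg]
          rintro ⟨h6, h7⟩
          exact hc ⟨by rw [← hp.sum_eq, h6], fun a ha => h7 a (hp.mem_iff.2 ha)⟩
        refine List.sum_eq_zero fun x hx => ?_
        obtain ⟨w, hw, rfl⟩ := List.mem_map.1 hx
        exact e1 w hw

theorem pol_zero (r k : ℕ) (hk : r < k) (lam : ℝ →ₗ[ℚ] ℚ)
    (hlam : ∀ x ∈ Fil (r - 1) k ⊔ Prd r k, lam x = 0)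
    (h0 : pol r (k - r) (fun w => lam (zr w)) = 0) : ∀ x ∈ Fil r k, lam x = 0 := by
  have hle : Fil r k ≤ LinearMap.ker lam := by
    unfold Fil
    rw [Submodule.span_le]
    rintro x ⟨s, hs, hsum, hlen, rfl⟩
    show lam (mzv s) = 0
    rcases Nat.lt_or_ge s.length r with h6 | h6
    · apply hlam
      refine Submodule.mem_sup_left (Submodule.subset_span ?_)
      exact ⟨s, hs, hsum, by omega, rfl⟩
    · have hl : s.length = r := le_antisymm hlen h6
      have hall : ∀ a ∈ s.reverse, 1 ≤ a := fun a ha => hs.1 a (List.mem_reverse.1 ha)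
      have e1 := sum_pred s.reverse hall
      have e2 := map_pred s.reverse hall
      rw [List.length_reverse, List.sum_reverse] at e1
      obtain ⟨n, hn, hnv⟩ := Pool.Agent.H492.UB.sba_mem_tuple (r := r) (e := k - r)
        (v := s.reverse.map (· - 1)) (by rw [List.length_map, List.length_reverse, hl])
        (by omega)
      rw [Finset.Nat.mem_antidiagonalTuple] at hn
      have h7 := coeff_pol h0 n hn
      rw [hnv, e2, List.reverse_reverse, zr_word s hs] at h7
      exact h7
  exact fun x hx => hle hx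

end H356Ind

open H356Ind in
theorem sInd (h1 : SMul) (h2 : SRegFil) (h3 : SStuf) (h4 : SNon) (h5 : SAbs) : SInd := by
  intro r k hr hk
  obtain ⟨N, hN⟩ : ∃ N : Submodule ℚ ℝ, N = Fil (r - 1) k ⊔ Prd r k := ⟨_, rfl⟩
  have hmem := pol_mem h1 h2 h3 h4 h5 r k hr hk
  have hzero := pol_zero r k hk
  rw [← hN] at hmem hzero
  show finrank ℚ (Fil r k ⧸ (Fil (r - 1) k ⊔ Prd r k).comap (Fil r k).subtype) ≤ _
  rw [← hN]
  -- the extension
  let ιm : (Fil r k ⧸ N.comap (Fil r k).subtype) →ₗ[ℚ] ℝ ⧸ N :=
    Submodule.mapQ (N.comap (Fil r k).subtype) N (Fil r k).subtype le_rfl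
  have hker : LinearMap.ker ιm = ⊥ := by
    rw [LinearMap.ker_eq_bot']
    intro x hx
    obtain ⟨y, rfl⟩ := Submodule.Quotient.mk_surjective _ x
    have h6 : ιm (Submodule.Quotient.mk y) = Submodule.Quotient.mk (y : ℝ) := rfl
    rw [h6, Submodule.Quotient.mk_eq_zero] at hx
    rw [Submodule.Quotient.mk_eq_zero]
    exact hx
  obtain ⟨π, hπ⟩ := ιm.exists_leftInverse_of_injective hker
  obtain ⟨E, hE⟩ : ∃ E : ℝ →ₗ[ℚ] (Fil r k ⧸ N.comap (Fil r k).subtype), E = π ∘ₗ N.mkQ :=
    ⟨_, rfl⟩
  have hE1 : ∀ x : Fil r k, E (x : ℝ) = Submodule.Quotient.mk x := by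
    intro x
    have h6 := LinearMap.congr_fun hπ (Submodule.Quotient.mk x)
    rw [hE]
    exact h6
  have hE0 : ∀ x ∈ N, E x = 0 := by
    intro x hx
    rw [hE]
    show π (N.mkQ x) = 0
    have h6 : N.mkQ x = 0 := by
      rw [Submodule.mkQ_apply, Submodule.Quotient.mk_eq_zero]
      exact hx
    rw [h6, map_zero]
  have hlam0 : ∀ φ : Module.Dual ℚ (Fil r k ⧸ N.comap (Fil r k).subtype), ∀ x ∈ N,
      (φ ∘ₗ E) x = 0 := by
    intro φ x hx
    rw [LinearMap.comp_apply, hE0 x hx, map_zero]
  obtain ⟨Φ0, hΦ0⟩ : ∃ Φ0 : Module.Dual ℚ (Fil r k ⧸ N.comap (Fil r k).subtype) →ₗ[ℚ]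
      MvPolynomial (Fin r) ℚ, ∀ φ, Φ0 φ = pol r (k - r) (fun w => (φ ∘ₗ E) (zr w)) := by
    refine ⟨{ toFun := fun φ => pol r (k - r) (fun w => (φ ∘ₗ E) (zr w)), map_add' := ?_,
              map_smul' := ?_ }, fun φ => rfl⟩
    · intro φ ψ
      simp only [pol, LinearMap.comp_apply, LinearMap.add_apply, map_add, add_mul,
          Finset.sum_add_distrib]
    · intro c φ
      simp only [pol, LinearMap.comp_apply, LinearMap.smul_apply, smul_eq_mul, map_mul,
          mul_assoc, Finset.smul_sum, MvPolynomial.smul_eq_C_mul, RingHom.id_apply]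
  have hΦm : ∀ φ, Φ0 φ ∈ Pool.Agent.H492.UB.W ℚ r (k - r) := by
    intro φ
    rw [hΦ0]
    exact hmem (φ ∘ₗ E) (hlam0 φ)
  have hΦi : Function.Injective (LinearMap.codRestrict _ Φ0 hΦm) := by
    rw [← LinearMap.ker_eq_bot, LinearMap.ker_codRestrict, LinearMap.ker_eq_bot']
    intro φ hφ
    rw [hΦ0] at hφ
    have h7 := hzero (φ ∘ₗ E) (hlam0 φ) hφ
    apply LinearMap.ext
    intro x
    obtain ⟨y, hy⟩ := Submodule.Quotient.mk_surjective _ x
    have h8 := h7 y y.2
    rw [LinearMap.comp_apply, hE1, hy] at h8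
    rw [h8, LinearMap.zero_apply]
  have := Pool.Agent.H492.UB.finite_W ℚ r (k - r) (by omega)
  rw [← Subspace.dual_finrank_eq]
  exact LinearMap.finrank_le_finrank_of_injective hΦi

end Pool.Agent.H492.RZ
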