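import Pool.Agent.H492.RZ.Stm
import Pool.Agent.H492.UB.Final

/-!
# RZ: `star2`, `star3` and the bounds in depths two and three
-/

set_option autoImplicit false

namespace Pool.Agent.H492.RZ

open Module Pool.Agent.H492.UB

namespace H356Star

variable {V M : Type} [AddCommGroup V] [Module (ZMod 2) V] [AddCommGroup M] {r : ℕ} {H : List V → M}

omit [AddCommGroup V] [Module (ZMod 2) V] in
theorem list2 {y : List V} (h : y.length = 2) : ∃ y1 y2, y = [y1, y2] := by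
  match y, h with
  | [y1, y2], _ => exact ⟨y1, y2, rfl⟩

omit [AddCommGroup V] [Module (ZMod 2) V] in
theorem list3 {y : List V} (h : y.length = 3) : ∃ y1 y2 y3, y = [y1, y2, y3] := by
  match y, h with
  | [y1, y2, y3], _ => exact ⟨y1, y2, y3, rfl⟩

theorem span2 (y1 y2 v : V) (h : v ∈ Submodule.span (ZMod 2) {x | x ∈ [y1, y2]}) :
    ∃ c1 c2 : ZMod 2, v = c1 • y1 + c2 • y2 := by
  have e : {x | x ∈ [y1, y2]} = ({y1, y2} : Set V) := by
    ext x; simp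
  rw [e] at h
  simp only [Submodule.mem_span_insert, Submodule.mem_span_singleton] at h
  obtain ⟨c1, _, ⟨c2, rfl⟩, rfl⟩ := h
  exact ⟨c1, c2, rfl⟩

theorem span3 (y1 y2 y3 v : V) (h : v ∈ Submodule.span (ZMod 2) {x | x ∈ [y1, y2, y3]}) :
    ∃ c1 c2 c3 : ZMod 2, v = c1 • y1 + (c2 • y2 + c3 • y3) := by
  have e : {x | x ∈ [y1, y2, y3]} = ({y1, y2, y3} : Set V) := by
    ext x; simp
  rw [e] at h
  simp only [Submodule.mem_span_insert, Submodule.mem_span_singleton] at h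
  obtain ⟨c1, _, ⟨c2, _, ⟨c3, rfl⟩, rfl⟩, rfl⟩ := h
  exact ⟨c1, c2, c3, rfl⟩

variable (h2 : ∀ m : M, m + m = 0) (h : BA r H) {v : V}
  (hv : ∀ w : List V, IsB r (w ++ [v]) → H (w ++ [v]) = 0)

include h2 h hv in
theorem words2 (hr : r = 2) (hv0 : v ≠ 0) {w : List V} (hw : IsB r w) : H w = 0 := by
  subst hr
  obtain ⟨y, rfl⟩ := exists_ps w (0 : V)
  have hy := isB_of_ps hw
  obtain ⟨y1, y2, rfl⟩ := list2 hy.1
  obtain ⟨c1, c2, hc⟩ := span2 y1 y2 v (by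
    have h1 : v ∈ Submodule.span (ZMod 2) {x | x ∈ [y1, y2]} := by rw [hy.2]; trivial
    exact h1)
  have h01 : ∀ c : ZMod 2, c = 0 ∨ c = 1 := by decide
  rcases h01 c1 with rfl | rfl <;> rcases h01 c2 with rfl | rfl
  all_goals simp only [zero_smul, one_smul, zero_add, add_zero] at hc
  · exact absurd hc hv0
  · exact gap_one h2 h hv hy (by rw [hc]; simp)
  · exact gap_one h2 h hv hy (by rw [hc]; simp)
  · exact gap_last h2 h hv hy (by norm_num) (by rw [hc]; simp)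

include h2 h hv in
theorem words3 (hr : r = 3) (hv0 : v ≠ 0) {w : List V} (hw : IsB r w) : H w = 0 := by
  subst hr
  obtain ⟨y, rfl⟩ := exists_ps w (0 : V)
  have hy := isB_of_ps hw
  obtain ⟨y1, y2, y3, rfl⟩ := list3 hy.1
  obtain ⟨c1, c2, c3, hc⟩ := span3 y1 y2 y3 v (by
    have h1 : v ∈ Submodule.span (ZMod 2) {x | x ∈ [y1, y2, y3]} := by rw [hy.2]; trivial
    exact h1)
  have h01 : ∀ c : ZMod 2, c = 0 ∨ c = 1 := by decide
  rcases h01 c1 with rfl | rfl <;> rcases h01 c2 with rfl | rfl <;> rcases h01 c3 with rfl | rfl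
  all_goals simp only [zero_smul, one_smul, zero_add, add_zero] at hc
  · exact absurd hc hv0
  · exact gap_one h2 h hv hy (by rw [hc]; simp)
  · exact gap_one h2 h hv hy (by rw [hc]; simp)
  · exact gap_two h2 h hv hy (by norm_num) [y1] [] [] y2 y3 rfl hc
  · exact gap_one h2 h hv hy (by rw [hc]; simp)
  · exact gap_two h2 h hv hy (by norm_num) [] [y2] [] y1 y3 rfl hc
  · exact gap_two h2 h hv hy (by norm_num) [] [] [y3] y1 y2 rfl hc
  · exact gap_last h2 h hv hy (by norm_num) (by rw [hc]; simp)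

end H356Star

theorem star2 : Pool.Agent.H492.UB.Star 2 := by
  intro M _ h2 H h v hv hT w
  exact H356Star.words2 h2 h (fun w hw => last_of_T h hT w (by norm_num) hw) rfl hv
    (isB_ofFn (by norm_num) w.1 w.2)

theorem star3 : Pool.Agent.H492.UB.Star 3 := by
  intro M _ h2 H h v hv hT w
  exact H356Star.words3 h2 h (fun w hw => last_of_T h hT w (by norm_num) hw) rfl hv
    (isB_ofFn (by norm_num) w.1 w.2)

theorem H356Star.W_le (r κ e : ℕ) (hr : 2 ≤ r) (hsep : Sep r κ) (hst : Star r) :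
    r * (2 ^ r - 1) * Module.finrank ℚ (Pool.Agent.H492.UB.W ℚ r e) ≤
      (e + κ + r - 1).choose (r - 1) := by
  have h2 := sMod sLattice sTransfer r e
  have h3 := sCount r κ (by omega) hsep hst sDim sCard e
  exact (Nat.mul_le_mul_left _ h2).trans h3

theorem ls2W (h : SSepE) : ∃ C : ℝ, ∀ e : ℕ,
    (finrank ℚ (Pool.Agent.H492.UB.W ℚ 2 e) : ℝ) ≤ (1 / 6) * e + C := by
  obtain ⟨κ, hκ⟩ := h 2 (by norm_num)
  refine ⟨(κ + 1) / 6, fun e => ?_⟩
  have h1 := H356Star.W_le 2 κ e le_rfl hκ star2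
  have h2 : (e + κ + 2 - 1).choose (2 - 1) = e + κ + 1 := by
    rw [show e + κ + 2 - 1 = e + κ + 1 by omega, show 2 - 1 = 1 by rfl, Nat.choose_one_right]
  rw [h2] at h1
  have h3 : ((2 * (2 ^ 2 - 1) * finrank ℚ (Pool.Agent.H492.UB.W ℚ 2 e) : ℕ) : ℝ) ≤
      ((e + κ + 1 : ℕ) : ℝ) := by exact_mod_cast h1
  have h4 : (2 * (2 ^ 2 - 1) * finrank ℚ (Pool.Agent.H492.UB.W ℚ 2 e) : ℕ) =
      6 * finrank ℚ (Pool.Agent.H492.UB.W ℚ 2 e) := by norm_num
  rw [h4] at h3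
  push_cast at h3
  linarith

theorem ls3W (h : SSepE) : ∃ C : ℝ, ∀ e : ℕ,
    (finrank ℚ (Pool.Agent.H492.UB.W ℚ 3 e) : ℝ) ≤ (1 / 42) * e ^ 2 + C * (e + 1) := by
  obtain ⟨κ, hκ⟩ := h 3 (by norm_num)
  refine ⟨(κ + 2) * (κ + 2), fun e => ?_⟩
  have h1 := H356Star.W_le 3 κ e (by norm_num) hκ star3
  have h2 : (e + κ + 3 - 1).choose (3 - 1) = (e + κ + 2) * (e + κ + 1) / 2 := by
    rw [show e + κ + 3 - 1 = e + κ + 2 by omega, show 3 - 1 = 2 by rfl, Nat.choose_two_right]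
    rfl
  rw [h2] at h1
  have h4 : (3 * (2 ^ 3 - 1) * finrank ℚ (Pool.Agent.H492.UB.W ℚ 3 e) : ℕ) =
      21 * finrank ℚ (Pool.Agent.H492.UB.W ℚ 3 e) := by norm_num
  rw [h4] at h1
  have h5 : 42 * finrank ℚ (Pool.Agent.H492.UB.W ℚ 3 e) ≤ (e + κ + 2) * (e + κ + 1) := by
    have := Nat.div_mul_le_self ((e + κ + 2) * (e + κ + 1)) 2
    omega
  have h3 : ((42 * finrank ℚ (Pool.Agent.H492.UB.W ℚ 3 e) : ℕ) : ℝ) ≤
      (((e + κ + 2) * (e + κ + 1) : ℕ) : ℝ) := by exact_mod_cast h5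
  push_cast at h3
  have he : (0 : ℝ) ≤ e := Nat.cast_nonneg e
  have hk : (0 : ℝ) ≤ κ := Nat.cast_nonneg κ
  nlinarith [mul_nonneg he hk, mul_nonneg he (mul_nonneg hk hk), mul_nonneg hk hk]

end Pool.Agent.H492.RZ
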